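import Mathlib.RingTheory.LaurentSeries
import Mathlib.AlgebraicGeometry.EllipticCurve.Affine.Point
import Mathlib.NumberTheory.Bernoulli
import Mathlib.NumberTheory.Padics.RingHoms
import Pool.Agent.Q17.ASD.Series

/-!
# The conjectured Atkin-Swinnerton-Dyer congruences for `E_k / (j - j(C)) ^ r` fail

The counterexample: `C : y² + y = x³ - x` (the curve of conductor `37`, `j(C) = 110592/37`), `k = 6`, `r = 1`,
`p = 5`, `n = 1`, `l = 5`.  Here `a_5(C) = -2` and the left-hand side of the conjectured congruence has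
5-adic valuation `14`, while the conjecture predicts at least `15`.
-/

namespace Pool.Agent.Results.MP_fb382b_nt.FailsAtFive

open Finset

/-- The `q`-expansion `E_k = 1 - (2k / B_k) ∑ σ_{k-1}(n) q^n`. -/
noncomputable def eisenstein (k : ℕ) : LaurentSeries ℚ :=
  ((PowerSeries.mk fun n => if n = 0 then (1 : ℚ) else
    -(2 * (k : ℚ) / bernoulli k) * ((ArithmeticFunction.sigma (k - 1) n : ℕ) : ℚ) : PowerSeries ℚ) :
      LaurentSeries ℚ)

/-- The `q`-expansion of `Δ = (E_4 ^ 3 - E_6 ^ 2) / 1728`. -/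
noncomputable def delta : LaurentSeries ℚ := (eisenstein 4 ^ 3 - eisenstein 6 ^ 2) / 1728

/-- The `q`-expansion of `j = E_4 ^ 3 / Δ`. -/
noncomputable def jInvariant : LaurentSeries ℚ := eisenstein 4 ^ 3 / delta

/-- The `q`-expansion of `E_k / (j - c) ^ r`. -/
noncomputable def form (k r : ℕ) (c : ℚ) : LaurentSeries ℚ :=
  eisenstein k / (jInvariant - HahnSeries.C c) ^ r

/-- The coefficient `a_m` of `q ^ m`; it is `0` if `m` is not an integer. -/
noncomputable def coeffAt (f : LaurentSeries ℚ) (m : ℚ) : ℚ := if m.den = 1 then f.coeff m.num else 0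

/-- `W` is an integral Weierstrass equation of `C` with good reduction at `p`. -/
def IsGoodModel (C : WeierstrassCurve ℚ) (p : ℕ) (W : WeierstrassCurve ℤ) : Prop :=
  (∃ φ : WeierstrassCurve.VariableChange ℚ, φ • C = W.map (Int.castRingHom ℚ)) ∧ ¬ (p : ℤ) ∣ W.Δ

/-- `p + 1 - #W(𝔽_p)`. -/
noncomputable def trace (p : ℕ) (W : WeierstrassCurve ℤ) : ℤ :=
  (p : ℤ) + 1 - Nat.card (W.map (Int.castRingHom (ZMod p))).toAffine.Point

/-- `c i` are the coefficients of the characteristic polynomial of Frobenius on the symmetric power: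
`∏_{i ≤ k-2} (X - α^{k-2-i} β^i) = ∑_{i < k} c_i X^{k-1-i}`, where `α, β` are the roots of `X² - t X + p`. -/
def IsFrobeniusCoefficients (k p : ℕ) (t : ℤ) (c : ℕ → ℤ) : Prop :=
  ∃ α β : ℂ, α + β = t ∧ α * β = p ∧
    ∏ i ∈ range (k - 1), (Polynomial.X - Polynomial.C (α ^ (k - 2 - i) * β ^ i)) =
      ∑ i ∈ range k, Polynomial.C ((c i : ℤ) : ℂ) * Polynomial.X ^ (k - 1 - i)

/-- `x ≡ 0 (mod p ^ e)`, that is, `v_p(x) ≥ e`. -/
def CongrZero (p : ℕ) (e : ℤ) (x : ℚ) : Prop := x = 0 ∨ e ≤ padicValRat p x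

/-- The statement of the question. -/
def Question : Prop :=
  ∀ k ∈ ({4, 6, 8, 10, 14} : Finset ℕ), ∀ r : ℕ, 1 ≤ r → r ≤ k - 1 →
  ∀ C : WeierstrassCurve ℚ, ∀ _ : C.IsElliptic, C.j ≠ 0 → C.j ≠ 1728 →
  ∀ p : ℕ, p.Prime → ∀ W : WeierstrassCurve ℤ, IsGoodModel C p W →
  padicValRat p C.j = 0 → padicValRat p (C.j - 1728) = 0 →
  ∀ c : ℕ → ℤ, IsFrobeniusCoefficients k p (trace p W) c →
  ∀ n l : ℕ, 1 ≤ n → 1 ≤ l →
    CongrZero p (((k : ℤ) - 1) * l - ((k : ℤ) - 3) * k / 2 - r)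
      (∑ i ∈ range k, (c i : ℚ) * coeffAt (form k r C.j) ((n : ℚ) * (p : ℚ) ^ ((l : ℤ) - (i : ℤ))))

/-! ### The counterexample -/

open Pool.Agent.Q17.ASD PowerSeries

theorem bernoulli_four : bernoulli 4 = -1 / 30 := by
  rw [bernoulli_eq_bernoulli'_of_ne_one (by norm_num), bernoulli'_four]

theorem bernoulli_six : bernoulli 6 = 1 / 42 := by
  rw [bernoulli_eq_bernoulli'_of_ne_one (by norm_num), bernoulli'_def]
  have h5 : bernoulli' 5 = 0 := bernoulli'_eq_zero_of_odd (by decide) (by norm_num)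
  have c2 : Nat.choose 6 2 = 15 := by decide
  have c3 : Nat.choose 6 3 = 20 := by decide
  have c4 : Nat.choose 6 4 = 15 := by decide
  simp [Finset.sum_range_succ, c2, c3, c4, h5, bernoulli'_four, bernoulli'_three, bernoulli'_two,
    bernoulli'_one, bernoulli'_zero]
  norm_num

/-- `E_4` over `ℚ` -/
noncomputable def E4Q : PowerSeries ℚ := E4Z.map (Int.castRingHom ℚ)
/-- `E_6` over `ℚ` -/
noncomputable def E6Q : PowerSeries ℚ := E6Z.map (Int.castRingHom ℚ)

theorem eis4 : eisenstein 4 = (E4Q : LaurentSeries ℚ) := by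
  unfold eisenstein E4Q
  congr 1
  ext n
  rw [coeff_map, E4Z, coeff_mk, coeff_mk]
  split_ifs with h
  · simp
  · rw [bernoulli_four]
    simp
    norm_num

theorem eis6 : eisenstein 6 = (E6Q : LaurentSeries ℚ) := by
  unfold eisenstein E6Q
  congr 1
  ext n
  rw [coeff_map, E6Z, coeff_mk, coeff_mk]
  split_ifs with h
  · simp
  · rw [bernoulli_six]
    simp
    norm_num

theorem cc4 : constantCoeff E4Z = 1 := by
  rw [← coeff_zero_eq_constantCoeff_apply, E4Z, coeff_mk, if_pos rfl]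

theorem cc6 : constantCoeff E6Z = 1 := by
  rw [← coeff_zero_eq_constantCoeff_apply, E6Z, coeff_mk, if_pos rfl]

theorem ccden : constantCoeff denZ = 1728 * 37 := by
  rw [denZ]
  simp only [map_mul, map_sub, map_pow, map_ofNat]
  rw [cc4, cc6]
  norm_num

theorem c1_4 : coeff 1 E4Z = 240 := by
  rw [E4Z, coeff_mk, if_neg one_ne_zero]
  simp

theorem c1_6 : coeff 1 E6Z = -504 := by
  rw [E6Z, coeff_mk, if_neg one_ne_zero]
  simp

theorem coeff_one_mul' (f g : PowerSeries ℤ) :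
    coeff 1 (f * g) = coeff 1 f * constantCoeff g + constantCoeff f * coeff 1 g := by
  rw [coeff_mul, Finset.Nat.antidiagonal_succ]
  simp
  ring

theorem c1_delta : coeff 1 (E4Z ^ 3 - E6Z ^ 2) = 1728 := by
  rw [map_sub, pow_succ, pow_two, pow_two, coeff_one_mul', coeff_one_mul', coeff_one_mul', map_mul, cc4, cc6,
    c1_4, c1_6]
  norm_num

/-- The series `num / den` over `ℚ`. -/
noncomputable def fQ : PowerSeries ℚ :=
  numZ.map (Int.castRingHom ℚ) * (denZ.map (Int.castRingHom ℚ))⁻¹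

theorem fQ_mul : fQ * denZ.map (Int.castRingHom ℚ) = numZ.map (Int.castRingHom ℚ) := by
  rw [fQ, mul_assoc, PowerSeries.inv_mul_cancel, mul_one]
  rw [← coeff_zero_eq_constantCoeff_apply, coeff_map, coeff_zero_eq_constantCoeff_apply, ccden]
  norm_num

theorem coe_injective : Function.Injective (fun f : PowerSeries ℚ => (f : LaurentSeries ℚ)) :=
  HahnSeries.ofPowerSeries_injective

theorem mapQ_injective : Function.Injective (PowerSeries.map (Int.castRingHom ℚ)) :=
  PowerSeries.map_injective _ (RingHom.injective_int _)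

theorem form_eq : form 6 1 (110592 / 37) = (fQ : LaurentSeries ℚ) := by
  -- the numerator and denominator in the field of Laurent series
  have hd : ((denZ.map (Int.castRingHom ℚ) : PowerSeries ℚ) : LaurentSeries ℚ) =
      1728 * (64 * (E6Q : LaurentSeries ℚ) ^ 2 - 27 * (E4Q : LaurentSeries ℚ) ^ 3) := by
    simp only [denZ, E4Q, E6Q, map_mul, map_sub, map_pow, map_ofNat]
  have hn : ((numZ.map (Int.castRingHom ℚ) : PowerSeries ℚ) : LaurentSeries ℚ) =
      37 * ((E6Q : LaurentSeries ℚ) * ((E4Q : LaurentSeries ℚ) ^ 3 - (E6Q : LaurentSeries ℚ) ^ 2)) := by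
    simp only [numZ, E4Q, E6Q, map_mul, map_sub, map_pow, map_ofNat]
  have hd0 : ((denZ.map (Int.castRingHom ℚ) : PowerSeries ℚ) : LaurentSeries ℚ) ≠ 0 := by
    intro h
    have h1 : denZ.map (Int.castRingHom ℚ) = 0 := coe_injective (by simpa using h)
    have h2 : denZ = 0 := mapQ_injective (by rw [h1, map_zero])
    have h3 := ccden
    rw [h2, map_zero] at h3
    norm_num at h3
  have hD0 : (E4Q : LaurentSeries ℚ) ^ 3 - (E6Q : LaurentSeries ℚ) ^ 2 ≠ 0 := by
    intro h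
    have h1 : (E4Z ^ 3 - E6Z ^ 2).map (Int.castRingHom ℚ) = 0 := by
      apply coe_injective
      simp only [E4Q, E6Q] at h
      simp only [map_sub, map_pow, map_zero]
      exact h
    have h2 : E4Z ^ 3 - E6Z ^ 2 = 0 := mapQ_injective (by rw [h1, map_zero])
    have h3 := c1_delta
    rw [h2, map_zero] at h3
    norm_num at h3
  have hf : (fQ : LaurentSeries ℚ) * ((denZ.map (Int.castRingHom ℚ) : PowerSeries ℚ) : LaurentSeries ℚ) =
      ((numZ.map (Int.castRingHom ℚ) : PowerSeries ℚ) : LaurentSeries ℚ) := by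
    rw [← PowerSeries.coe_mul, fQ_mul]
  rw [hn] at hf
  have hc : (HahnSeries.C (110592 / 37 : ℚ) : LaurentSeries ℚ) = 110592 / 37 := by
    rw [map_div₀, map_ofNat, map_ofNat]
  rw [hd] at hf hd0
  unfold form jInvariant delta
  rw [hc, eis4, eis6, pow_one]
  generalize (E4Q : LaurentSeries ℚ) = x at *
  generalize (E6Q : LaurentSeries ℚ) = y at *
  have h37 : (37 : LaurentSeries ℚ) ≠ 0 := by
    have : (37 : LaurentSeries ℚ) = HahnSeries.C (37 : ℚ) := (map_ofNat _ _).symm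
    rw [this]
    exact (map_ne_zero _).2 (by norm_num)
  have h1728 : (1728 : LaurentSeries ℚ) ≠ 0 := by
    have : (1728 : LaurentSeries ℚ) = HahnSeries.C (1728 : ℚ) := (map_ofNat _ _).symm
    rw [this]
    exact (map_ne_zero _).2 (by norm_num)
  have key : x ^ 3 / ((x ^ 3 - y ^ 2) / 1728) - 110592 / 37 =
      (1728 * (64 * y ^ 2 - 27 * x ^ 3)) / (37 * (x ^ 3 - y ^ 2)) := by
    field_simp
    ring
  rw [key, div_div_eq_mul_div, div_eq_iff hd0, hf]
  ring

/-! ### Reduction modulo `5 ^ 15` -/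

instance fact5 : Fact (Nat.Prime 5) := ⟨by norm_num⟩

theorem unit_den : IsUnit (denZ.map (Int.castRingHom ℤ_[5])) := by
  rw [isUnit_iff_constantCoeff, ← coeff_zero_eq_constantCoeff_apply, coeff_map,
    coeff_zero_eq_constantCoeff_apply, ccden]
  have h : (Int.castRingHom ℤ_[5]) (1728 * 37) = ((63936 : ℤ) : ℤ_[5]) := by norm_num
  rw [h, PadicInt.isUnit_iff]
  by_contra hcon
  have h1 : ‖((63936 : ℤ) : ℤ_[5])‖ < 1 := lt_of_le_of_ne (PadicInt.norm_le_one _) hcon
  rw [PadicInt.norm_int_lt_one_iff_dvd] at h1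
  norm_num at h1

/-- The series over `ℤ_5`. -/
theorem exists_f5 : ∃ f : PowerSeries ℤ_[5],
    (∀ i, ((coeff i fQ : ℚ) : ℚ_[5]) = ((coeff i f : ℤ_[5]) : ℚ_[5])) ∧
    f * denZ.map (Int.castRingHom ℤ_[5]) = numZ.map (Int.castRingHom ℤ_[5]) := by
  obtain ⟨u, hu⟩ := unit_den
  refine ⟨numZ.map (Int.castRingHom ℤ_[5]) * ((u⁻¹ : (PowerSeries ℤ_[5])ˣ) : PowerSeries ℤ_[5]), ?_, ?_⟩
  · have h1 : (fQ.map (algebraMap ℚ ℚ_[5])) * denZ.map (Int.castRingHom ℚ_[5]) =
        numZ.map (Int.castRingHom ℚ_[5]) := by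
      have := congrArg (PowerSeries.map (algebraMap ℚ ℚ_[5])) fQ_mul
      rw [map_mul] at this
      rw [← RingHom.comp_apply, ← PowerSeries.map_comp, ← RingHom.comp_apply, ← PowerSeries.map_comp] at this
      rwa [RingHom.eq_intCast' ((algebraMap ℚ ℚ_[5]).comp (Int.castRingHom ℚ))] at this
    have h2 : ((numZ.map (Int.castRingHom ℤ_[5]) *
          ((u⁻¹ : (PowerSeries ℤ_[5])ˣ) : PowerSeries ℤ_[5])).map (PadicInt.Coe.ringHom (p := 5))) *
          denZ.map (Int.castRingHom ℚ_[5]) = numZ.map (Int.castRingHom ℚ_[5]) := by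
      have h3 : (numZ.map (Int.castRingHom ℤ_[5]) *
          ((u⁻¹ : (PowerSeries ℤ_[5])ˣ) : PowerSeries ℤ_[5])) * denZ.map (Int.castRingHom ℤ_[5]) =
          numZ.map (Int.castRingHom ℤ_[5]) := by
        rw [← hu, mul_assoc, Units.inv_mul, mul_one]
      have := congrArg (PowerSeries.map (PadicInt.Coe.ringHom (p := 5))) h3
      rw [map_mul] at this
      rw [← RingHom.comp_apply (PowerSeries.map _) (PowerSeries.map _) denZ, ← PowerSeries.map_comp,
        ← RingHom.comp_apply (PowerSeries.map _) (PowerSeries.map _) numZ, ← PowerSeries.map_comp] at this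
      rwa [RingHom.eq_intCast' ((PadicInt.Coe.ringHom (p := 5)).comp (Int.castRingHom ℤ_[5]))] at this
    have h4 : denZ.map (Int.castRingHom ℚ_[5]) ≠ 0 := by
      intro h
      have h5 := congrArg (coeff 0) h
      rw [coeff_map, coeff_zero_eq_constantCoeff_apply, ccden, map_zero] at h5
      norm_num at h5
    have h6 := mul_right_cancel₀ h4 (h1.trans h2.symm)
    intro i
    have h7 := congrArg (coeff i) h6
    rw [coeff_map, coeff_map] at h7
    exact h7
  · rw [← hu, mul_assoc, Units.inv_mul, mul_one]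

/-- the homomorphism `ℤ_5 → ℤ / 5 ^ 15` -/
noncomputable def red5 : ℤ_[5] →+* ZMod M :=
  ((ZMod.ringEquivCongr (by norm_num : 5 ^ 15 = M)) : ZMod (5 ^ 15) →+* ZMod M).comp
    (PadicInt.toZModPow 15)

theorem red5_eq_zero {x : ℤ_[5]} (hx : ‖x‖ ≤ (5 : ℝ) ^ (-(15 : ℤ))) : red5 x = 0 := by
  have h1 : x ∈ Ideal.span {((5 : ℕ) : ℤ_[5]) ^ 15} := by
    rw [← PadicInt.norm_le_pow_iff_mem_span_pow]
    exact_mod_cast hx
  have h2 : PadicInt.toZModPow 15 x = 0 := by
    rw [← RingHom.mem_ker, PadicInt.ker_toZModPow]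
    exact h1
  rw [red5, RingHom.comp_apply, h2, map_zero]

/-- Coefficients of the characteristic polynomial of Frobenius at `5` on `Sym⁴`. -/
def cs (i : ℕ) : ℤ := [1, 19, 570, -14250, -296875, -9765625].getD i 0

theorem sum_ne (f : PowerSeries ℤ_[5])
    (hf : f * denZ.map (Int.castRingHom ℤ_[5]) = numZ.map (Int.castRingHom ℤ_[5])) :
    red5 (∑ i ∈ range 6, ((cs i : ℤ) : ℤ_[5]) * coeff (5 ^ (5 - i)) f) ≠ 0 := by
  have h1 : (f.map red5) * denZ.map rd = numZ.map rd := by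
    have := congrArg (PowerSeries.map red5) hf
    rw [map_mul] at this
    rw [← RingHom.comp_apply (PowerSeries.map _) (PowerSeries.map _) denZ, ← PowerSeries.map_comp,
        ← RingHom.comp_apply (PowerSeries.map _) (PowerSeries.map _) numZ, ← PowerSeries.map_comp] at this
    rwa [RingHom.eq_intCast' (red5.comp (Int.castRingHom ℤ_[5]))] at this
  have h2 : ∀ i, i < 3126 → red5 (coeff i f) = ((f0 / B ^ i % B : ℕ) : ZMod M) := by
    intro i hi
    rw [← coeff_quot _ h1 i hi, coeff_map]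
  obtain ⟨e1, e5, e25, e125, e625, e3125⟩ := k_f
  have g0 : red5 (coeff (5 ^ (5 - 0)) f) = ((12455545731 : ℕ) : ZMod M) := by
    rw [show 5 ^ (5 - 0) = 3125 by norm_num, h2 3125 (by norm_num), e3125]
  have g1 : red5 (coeff (5 ^ (5 - 1)) f) = ((5868814546 : ℕ) : ZMod M) := by
    rw [show 5 ^ (5 - 1) = 625 by norm_num, h2 625 (by norm_num), e625]
  have g2 : red5 (coeff (5 ^ (5 - 2)) f) = ((10847334586 : ℕ) : ZMod M) := by
    rw [show 5 ^ (5 - 2) = 125 by norm_num, h2 125 (by norm_num), e125]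
  have g3 : red5 (coeff (5 ^ (5 - 3)) f) = ((3196500351 : ℕ) : ZMod M) := by
    rw [show 5 ^ (5 - 3) = 25 by norm_num, h2 25 (by norm_num), e25]
  have g4 : red5 (coeff (5 ^ (5 - 4)) f) = ((12517976866 : ℕ) : ZMod M) := by
    rw [show 5 ^ (5 - 4) = 5 by norm_num, h2 5 (by norm_num), e5]
  have g5 : red5 (coeff (5 ^ (5 - 5)) f) = ((1 : ℕ) : ZMod M) := by
    rw [show 5 ^ (5 - 5) = 1 by norm_num, h2 1 (by norm_num), e1]
  rw [map_sum]
  simp only [map_mul, map_intCast]
  rw [Finset.sum_range_succ, Finset.sum_range_succ, Finset.sum_range_succ, Finset.sum_range_succ,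
    Finset.sum_range_succ, Finset.sum_range_one, g0, g1, g2, g3, g4, g5]
  have hval : ((cs 0 : ℤ) : ZMod M) * ((12455545731 : ℕ) : ZMod M) + ((cs 1 : ℤ) : ZMod M) * ((5868814546 : ℕ) : ZMod M) +
      ((cs 2 : ℤ) : ZMod M) * ((10847334586 : ℕ) : ZMod M) + ((cs 3 : ℤ) : ZMod M) * ((3196500351 : ℕ) : ZMod M) +
      ((cs 4 : ℤ) : ZMod M) * ((12517976866 : ℕ) : ZMod M) + ((cs 5 : ℤ) : ZMod M) * ((1 : ℕ) : ZMod M) =
      ((-3755517578125000 : ℤ) : ZMod M) := by
    simp only [cs, List.getD_cons_zero, List.getD_cons_succ]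
    push_cast
    ring
  rw [hval, Ne, ZMod.intCast_zmod_eq_zero_iff_dvd]
  norm_num

/-! ### The elliptic curve -/

/-- `y² + y = x³ - x` -/
def W : WeierstrassCurve ℤ := ⟨0, 0, 1, -1, 0⟩

theorem W_delta : W.Δ = 37 := by
  norm_num [W, WeierstrassCurve.Δ, WeierstrassCurve.b₂, WeierstrassCurve.b₄, WeierstrassCurve.b₆,
    WeierstrassCurve.b₈]

/-- the curve over `ℚ` -/
def E : WeierstrassCurve ℚ := W.map (Int.castRingHom ℚ)

theorem E_delta : E.Δ = 37 := by
  rw [E, WeierstrassCurve.map_Δ, W_delta]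
  norm_num

instance E_elliptic : E.IsElliptic := ⟨by rw [E_delta]; exact isUnit_iff_ne_zero.2 (by norm_num)⟩

theorem E_j : E.j = 110592 / 37 := by
  have h1 : E.c₄ = 48 := by
    norm_num [E, W, WeierstrassCurve.c₄, WeierstrassCurve.b₂, WeierstrassCurve.b₄, WeierstrassCurve.map]
  rw [WeierstrassCurve.j, h1]
  have h2 : ((E.Δ'⁻¹ : ℚˣ) : ℚ) = 37⁻¹ := by
    rw [Units.val_inv_eq_inv_val, WeierstrassCurve.coe_Δ', E_delta]
  rw [h2]
  norm_num

theorem good : IsGoodModel E 5 W := by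
  refine ⟨⟨1, by rw [one_smul]; rfl⟩, ?_⟩
  rw [W_delta]
  norm_num

/-- The affine points of the reduction. -/
theorem card_points : Nat.card (W.map (Int.castRingHom (ZMod 5))).toAffine.Point = 8 := by
  set V := (W.map (Int.castRingHom (ZMod 5))).toAffine with hV
  have hΔ : V.Δ ≠ 0 := by
    have : V.Δ = ((37 : ℤ) : ZMod 5) := by
      rw [hV]
      change (W.map (Int.castRingHom (ZMod 5))).Δ = _
      rw [WeierstrassCurve.map_Δ, W_delta]
      rfl
    rw [this]
    decide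
  have heq : ∀ x y : ZMod 5, V.Nonsingular x y ↔ y ^ 2 + y = x ^ 3 - x := by
    intro x y
    rw [← WeierstrassCurve.Affine.equation_iff_nonsingular_of_Δ_ne_zero hΔ,
      WeierstrassCurve.Affine.equation_iff]
    simp only [hV, W, WeierstrassCurve.map]
    simp
    constructor <;> intro h <;> linear_combination h
  let e : V.Point ≃ Option {P : ZMod 5 × ZMod 5 // P.2 ^ 2 + P.2 = P.1 ^ 3 - P.1} :=
    { toFun := fun P => match P with
        | .zero => none
        | .some x y h => some ⟨(x, y), (heq x y).1 h⟩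
      invFun := fun P => match P with
        | none => .zero
        | some ⟨(x, y), h⟩ => .some x y ((heq x y).2 h)
      left_inv := fun P => by cases P <;> rfl
      right_inv := fun P => by rcases P with _ | ⟨⟨x, y⟩, h⟩ <;> rfl }
  rw [Nat.card_congr e, Nat.card_eq_fintype_card, Fintype.card_option]
  decide +kernel

theorem trace_eq : trace 5 W = -2 := by
  rw [trace, card_points]
  norm_num

theorem frob : IsFrobeniusCoefficients 6 5 (-2) cs := by
  have hI : Complex.I ^ 2 = -1 := Complex.I_sq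
  have hs : (-1 + 2 * Complex.I) + (-1 - 2 * Complex.I) = ((-2 : ℤ) : ℂ) := by push_cast; ring
  have hp : (-1 + 2 * Complex.I) * (-1 - 2 * Complex.I) = ((5 : ℕ) : ℂ) := by
    push_cast
    linear_combination (-4 : ℂ) * hI
  refine ⟨-1 + 2 * Complex.I, -1 - 2 * Complex.I, hs, hp, ?_⟩
  generalize (-1 + 2 * Complex.I) = α at hs hp ⊢
  generalize (-1 - 2 * Complex.I) = β at hs hp ⊢
  have hs' : (Polynomial.C α + Polynomial.C β : Polynomial ℂ) = -2 := by
    rw [← Polynomial.C_add, hs, map_intCast]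
    norm_num
  have hp' : (Polynomial.C α * Polynomial.C β : Polynomial ℂ) = 5 := by
    rw [← Polynomial.C_mul, hp, map_natCast]
    norm_num
  rw [show (6 - 1 : ℕ) = 5 by norm_num]
  rw [Finset.prod_range_succ, Finset.prod_range_succ, Finset.prod_range_succ, Finset.prod_range_succ,
    Finset.prod_range_one, Finset.sum_range_succ, Finset.sum_range_succ, Finset.sum_range_succ,
    Finset.sum_range_succ, Finset.sum_range_succ, Finset.sum_range_one]
  simp only [cs, List.getD_cons_zero, List.getD_cons_succ, Polynomial.C_mul, Polynomial.C_pow, Nat.reduceSub,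
    pow_zero, mul_one, one_mul, pow_one]
  generalize (Polynomial.C α : Polynomial ℂ) = a at hs' hp' ⊢
  generalize (Polynomial.C β : Polynomial ℂ) = b at hs' hp' ⊢
  have e2 : a ^ 2 + b ^ 2 = -6 := by linear_combination (a + b - 2) * hs' - 2 * hp'
  have e4 : a ^ 4 + b ^ 4 = -14 := by
    linear_combination (a ^ 2 + b ^ 2 - 6) * e2 - 2 * (a * b + 5) * hp'
  have p4 : a ^ 4 * b ^ 4 = 625 := by
    linear_combination ((a * b) ^ 3 + 5 * (a * b) ^ 2 + 25 * (a * b) + 125) * hp'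
  have e3 : a ^ 3 * b + a * b ^ 3 = -30 := by
    linear_combination (a ^ 2 + b ^ 2) * hp' + 5 * e2
  have p3 : (a ^ 3 * b) * (a * b ^ 3) = 625 := by
    linear_combination ((a * b) ^ 3 + 5 * (a * b) ^ 2 + 25 * (a * b) + 125) * hp'
  have p2 : a ^ 2 * b ^ 2 = 25 := by linear_combination (a * b + 5) * hp'
  have c1 : (Polynomial.C ((1 : ℤ) : ℂ) : Polynomial ℂ) = 1 := by rw [map_intCast]; norm_num
  have c2 : (Polynomial.C ((19 : ℤ) : ℂ) : Polynomial ℂ) = 19 := by rw [map_intCast]; norm_num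
  have c3 : (Polynomial.C ((570 : ℤ) : ℂ) : Polynomial ℂ) = 570 := by rw [map_intCast]; norm_num
  have c4 : (Polynomial.C ((-14250 : ℤ) : ℂ) : Polynomial ℂ) = -14250 := by rw [map_intCast]; norm_num
  have c5 : (Polynomial.C ((-296875 : ℤ) : ℂ) : Polynomial ℂ) = -296875 := by rw [map_intCast]; norm_num
  have c6 : (Polynomial.C ((-9765625 : ℤ) : ℂ) : Polynomial ℂ) = -9765625 := by rw [map_intCast]; norm_num
  rw [c1, c2, c3, c4, c5, c6]
  generalize (Polynomial.X : Polynomial ℂ) = x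
  calc (x - a ^ 4) * (x - a ^ 3 * b) * (x - a ^ 2 * b ^ 2) * (x - a * b ^ 3) * (x - b ^ 4)
      = (x ^ 2 - (a ^ 4 + b ^ 4) * x + a ^ 4 * b ^ 4) *
        (x ^ 2 - (a ^ 3 * b + a * b ^ 3) * x + (a ^ 3 * b) * (a * b ^ 3)) * (x - a ^ 2 * b ^ 2) := by ring
    _ = _ := by
      rw [e4, p4, e3, p3, p2]
      ring

theorem coeffAt_nat (f : PowerSeries ℚ) (m : ℕ) : coeffAt (f : LaurentSeries ℚ) (m : ℚ) = coeff m f := by
  unfold coeffAt
  rw [if_pos (Rat.den_natCast m), Rat.num_natCast, LaurentSeries.coeff_coe_powerSeries]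

theorem val_E : padicValRat 5 E.j = 0 ∧ padicValRat 5 (E.j - 1728) = 0 := by
  have key : ∀ a b : ℕ, a ≠ 0 → b ≠ 0 → ¬ 5 ∣ a → ¬ 5 ∣ b → padicValRat 5 ((a : ℚ) / b) = 0 := by
    intro a b ha hb h1 h2
    rw [padicValRat.div (by exact_mod_cast ha) (by exact_mod_cast hb), padicValRat.of_nat, padicValRat.of_nat,
      padicValNat.eq_zero_of_not_dvd h1, padicValNat.eq_zero_of_not_dvd h2]
    simp
  rw [E_j]
  constructor
  · have := key 110592 37 (by norm_num) (by norm_num) (by norm_num) (by norm_num)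
    norm_num at this ⊢
    exact this
  · have := key 46656 37 (by norm_num) (by norm_num) (by norm_num) (by norm_num)
    norm_num at this ⊢
    exact this

/-- **The congruences of the question fail** (for `C : y² + y = x³ - x`, `k = 6`, `r = 1`, `p = 5`, `n = 1`,
`l = 5`). -/
theorem result : ¬ Question := by
  intro hQ
  have h := hQ 6 (by decide) 1 le_rfl (by norm_num) E E_elliptic (by rw [E_j]; norm_num)
    (by rw [E_j]; norm_num) 5 (by norm_num) W good val_E.1 val_E.2 cs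
    (by rw [trace_eq]; exact frob) 1 5 le_rfl (by norm_num)
  obtain ⟨f, hf1, hf2⟩ := exists_f5
  -- the sum
  have hsum : (∑ i ∈ range 6, ((cs i : ℤ) : ℚ) *
      coeffAt (form 6 1 E.j) (((1 : ℕ) : ℚ) * ((5 : ℕ) : ℚ) ^ (((5 : ℕ) : ℤ) - ((i : ℕ) : ℤ)))) =
      ∑ i ∈ range 6, ((cs i : ℤ) : ℚ) * coeff (5 ^ (5 - i)) fQ := by
    refine Finset.sum_congr rfl fun i hi => ?_
    have hi' : i ≤ 5 := by
      have := Finset.mem_range.1 hi
      omega
    rw [E_j, form_eq, ← coeffAt_nat]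
    congr 2
    rw [show ((5 : ℕ) : ℤ) - (i : ℤ) = ((5 - i : ℕ) : ℤ) by omega, zpow_natCast]
    push_cast
    ring
  rw [hsum] at h
  set S : ℚ := ∑ i ∈ range 6, ((cs i : ℤ) : ℚ) * coeff (5 ^ (5 - i)) fQ with hS
  set T : ℤ_[5] := ∑ i ∈ range 6, ((cs i : ℤ) : ℤ_[5]) * coeff (5 ^ (5 - i)) f with hT
  have hST : ((S : ℚ) : ℚ_[5]) = ((T : ℤ_[5]) : ℚ_[5]) := by
    rw [hS, hT]
    push_cast
    rw [PadicInt.coe_sum]
    refine Finset.sum_congr rfl fun i _ => ?_
    rw [hf1]
    push_cast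
    rfl
  have hT0 : red5 T ≠ 0 := sum_ne f hf2
  apply hT0
  apply red5_eq_zero
  rw [PadicInt.norm_def, ← hST]
  rcases h with h | h
  · rw [h]
    simp
  · by_cases hS0 : S = 0
    · rw [hS0]
      simp
    · rw [Padic.eq_padicNorm, padicNorm.eq_zpow_of_nonzero hS0]
      push_cast
      apply zpow_le_zpow_right₀ (by norm_num)
      norm_num at h
      omega

end Pool.Agent.Results.MP_fb382b_nt.FailsAtFive
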